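import Mathlib

set_option autoImplicit false

namespace Pool.Agent.Results.MP_8926dc_co.TwoVertices

open Finset

/-- `k_j(G)`: the number of `j`-element vertex sets of `G` spanning a clique. -/
noncomputable def kq {n : ℕ} (j : ℕ) (G : SimpleGraph (Fin n)) : ℕ :=
  {S : Finset (Fin n) | G.IsNClique j S}.ncard

/-- `f_j(s,t) = C(s,j) + C(t,j-1)` (used for `j ≥ 1`). -/
def f (j s t : ℕ) : ℕ := s.choose j + t.choose (j - 1)

/-- The values `k_r(G)` over all finite graphs `G` with `k_p(G) ≤ x`. -/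
def vals (p r x : ℕ) : Set ℕ :=
  {m | ∃ (n : ℕ) (G : SimpleGraph (Fin n)), kq p G ≤ x ∧ kq r G = m}

section graph

variable {V : Type} [Fintype V] [DecidableEq V]

/-- a clique on `S0` plus two further non-adjacent vertices joined to `N1`, `N2` -/
def H (S0 N1 N2 : Finset V) (v1 v2 : V) : SimpleGraph V where
  Adj x y := x ≠ y ∧ ((x ∈ S0 ∧ y ∈ S0) ∨ (x = v1 ∧ y ∈ N1) ∨ (y = v1 ∧ x ∈ N1) ∨
    (x = v2 ∧ y ∈ N2) ∨ (y = v2 ∧ x ∈ N2))
  symm := ⟨by
    rintro x y ⟨h, h'⟩
    exact ⟨h.symm, by tauto⟩⟩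
  loopless := ⟨by
    rintro x ⟨h, _⟩
    exact h rfl⟩

/-- the family of cliques of size `j + 1` -/
lemma cliques (S0 N1 N2 : Finset V) (v1 v2 : V) (h1 : v1 ∉ S0) (h2 : v2 ∉ S0) (h12 : v1 ≠ v2)
    (hN1 : N1 ⊆ S0) (hN2 : N2 ⊆ S0) (hall : ∀ x, x ∈ S0 ∨ x = v1 ∨ x = v2) (j : ℕ) :
    {S : Finset V | (H S0 N1 N2 v1 v2).IsNClique (j + 1) S} =
      (((S0.powersetCard (j + 1)) ∪ (N1.powersetCard j).image (insert v1) ∪
        (N2.powersetCard j).image (insert v2) : Finset (Finset V)) : Set (Finset V)) := by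
  ext S
  simp only [Set.mem_ofPred_eq, Finset.coe_union, Set.mem_union, Finset.mem_coe,
    Finset.mem_powersetCard, Finset.mem_image]
  rw [SimpleGraph.isNClique_iff]
  have hv1N : v1 ∉ N1 := fun h => h1 (hN1 h)
  have hv2N : v2 ∉ N2 := fun h => h2 (hN2 h)
  have hv1N2 : v1 ∉ N2 := fun h => h1 (hN2 h)
  have hv2N1 : v2 ∉ N1 := fun h => h2 (hN1 h)
  constructor
  · rintro ⟨hcl, hcard⟩
    by_cases hv1 : v1 ∈ S
    · left; right
      refine ⟨S.erase v1, ⟨?_, ?_⟩, Finset.insert_erase hv1⟩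
      · intro x hx
        rw [Finset.mem_erase] at hx
        have := hcl (Finset.mem_coe.mpr hv1) (Finset.mem_coe.mpr hx.2) (Ne.symm hx.1)
        obtain ⟨_, h | h | h | h | h⟩ := this
        · exact absurd h.1 h1
        · exact h.2
        · exact absurd h.1 hx.1
        · exact absurd h.1 h12
        · exact absurd h.2 hv1N2
      · rw [Finset.card_erase_of_mem hv1, hcard]; rfl
    · by_cases hv2 : v2 ∈ S
      · right
        refine ⟨S.erase v2, ⟨?_, ?_⟩, Finset.insert_erase hv2⟩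
        · intro x hx
          rw [Finset.mem_erase] at hx
          have := hcl (Finset.mem_coe.mpr hv2) (Finset.mem_coe.mpr hx.2) (Ne.symm hx.1)
          obtain ⟨_, h | h | h | h | h⟩ := this
          · exact absurd h.1 h2
          · exact absurd h.1 h12.symm
          · exact absurd h.2 hv2N1
          · exact h.2
          · exact absurd h.1 hx.1
        · rw [Finset.card_erase_of_mem hv2, hcard]; rfl
      · left; left
        refine ⟨fun x hx => ?_, hcard⟩
        rcases hall x with h | h | h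
        · exact h
        · exact absurd (h ▸ hx) hv1
        · exact absurd (h ▸ hx) hv2
  · rintro ((⟨hsub, hcard⟩ | ⟨T, ⟨hsub, hcard⟩, rfl⟩) | ⟨T, ⟨hsub, hcard⟩, rfl⟩)
    · refine ⟨fun x hx y hy hxy => ⟨hxy, Or.inl ⟨hsub hx, hsub hy⟩⟩, hcard⟩
    · refine ⟨?_, ?_⟩
      · intro x hx y hy hxy
        rw [Finset.mem_coe, Finset.mem_insert] at hx hy
        refine ⟨hxy, ?_⟩
        rcases hx with rfl | hx <;> rcases hy with rfl | hy
        · exact absurd rfl hxy
        · exact Or.inr (Or.inl ⟨rfl, hsub hy⟩)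
        · exact Or.inr (Or.inr (Or.inl ⟨rfl, hsub hx⟩))
        · exact Or.inl ⟨hN1 (hsub hx), hN1 (hsub hy)⟩
      · rw [Finset.card_insert_of_notMem (fun h => hv1N (hsub h)), hcard]
    · refine ⟨?_, ?_⟩
      · intro x hx y hy hxy
        rw [Finset.mem_coe, Finset.mem_insert] at hx hy
        refine ⟨hxy, ?_⟩
        rcases hx with rfl | hx <;> rcases hy with rfl | hy
        · exact absurd rfl hxy
        · exact Or.inr (Or.inr (Or.inr (Or.inl ⟨rfl, hsub hy⟩)))
        · exact Or.inr (Or.inr (Or.inr (Or.inr ⟨rfl, hsub hx⟩)))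
        · exact Or.inl ⟨hN2 (hsub hx), hN2 (hsub hy)⟩
      · rw [Finset.card_insert_of_notMem (fun h => hv2N (hsub h)), hcard]

lemma count (S0 N1 N2 : Finset V) (v1 v2 : V) (h1 : v1 ∉ S0) (h2 : v2 ∉ S0) (h12 : v1 ≠ v2)
    (hN1 : N1 ⊆ S0) (hN2 : N2 ⊆ S0) (hall : ∀ x, x ∈ S0 ∨ x = v1 ∨ x = v2) (j : ℕ) :
    {S : Finset V | (H S0 N1 N2 v1 v2).IsNClique (j + 1) S}.ncard =
      S0.card.choose (j + 1) + N1.card.choose j + N2.card.choose j := by
  rw [cliques S0 N1 N2 v1 v2 h1 h2 h12 hN1 hN2 hall j, Set.ncard_coe_finset]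
  have hv1N : v1 ∉ N1 := fun h => h1 (hN1 h)
  have hv2N : v2 ∉ N2 := fun h => h2 (hN2 h)
  have hv1N2 : v1 ∉ N2 := fun h => h1 (hN2 h)
  have hv2N1 : v2 ∉ N1 := fun h => h2 (hN1 h)
  rw [Finset.card_union_of_disjoint, Finset.card_union_of_disjoint, Finset.card_powersetCard,
    Finset.card_image_of_injOn, Finset.card_powersetCard, Finset.card_image_of_injOn,
    Finset.card_powersetCard]
  · intro A hA B hB hAB
    rw [Finset.mem_coe, Finset.mem_powersetCard] at hA hB
    have hA' : v2 ∉ A := fun h => hv2N (hA.1 h)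
    have hB' : v2 ∉ B := fun h => hv2N (hB.1 h)
    rw [← Finset.erase_insert hA', ← Finset.erase_insert hB']
    exact congrArg (fun C => C.erase v2) hAB
  · intro A hA B hB hAB
    rw [Finset.mem_coe, Finset.mem_powersetCard] at hA hB
    have hA' : v1 ∉ A := fun h => hv1N (hA.1 h)
    have hB' : v1 ∉ B := fun h => hv1N (hB.1 h)
    rw [← Finset.erase_insert hA', ← Finset.erase_insert hB']
    exact congrArg (fun C => C.erase v1) hAB
  · rw [Finset.disjoint_left]
    intro A hA hB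
    rw [Finset.mem_powersetCard] at hA
    rw [Finset.mem_image] at hB
    obtain ⟨T, _, rfl⟩ := hB
    exact h1 (hA.1 (Finset.mem_insert_self _ _))
  · rw [Finset.disjoint_left]
    intro A hA hB
    rw [Finset.mem_union] at hA
    rw [Finset.mem_image] at hB
    obtain ⟨T, hT, rfl⟩ := hB
    rw [Finset.mem_powersetCard] at hT
    rcases hA with hA | hA
    · rw [Finset.mem_powersetCard] at hA
      exact h2 (hA.1 (Finset.mem_insert_self _ _))
    · rw [Finset.mem_image] at hA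
      obtain ⟨T', hT', hE⟩ := hA
      rw [Finset.mem_powersetCard] at hT'
      have : v2 ∈ insert v1 T' := hE ▸ Finset.mem_insert_self v2 T
      rw [Finset.mem_insert] at this
      rcases this with h | h
      · exact h12 h.symm
      · exact hv2N1 (hT'.1 h)

end graph

/-- For all `3 ≤ p < r ≤ s` and `t < s` with `C(r-1,p-1) < C(t,p-2)` the claimed value is exceeded. -/
lemma exceeds (p r s t : ℕ) (hp : 3 ≤ p) (hpr : p < r) (hrs : r ≤ s) (hts : t < s)
    (hb : (r - 1).choose (p - 1) < t.choose (p - 2)) :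
    ∃ m ∈ vals p r (f p s (t + 1) - 1), f r s t < m := by
  let S0 : Finset (Fin (s + 2)) := univ.filter (fun x => (x : ℕ) < s)
  let N1 : Finset (Fin (s + 2)) := univ.filter (fun x => (x : ℕ) < t)
  let N2 : Finset (Fin (s + 2)) := univ.filter (fun x => (x : ℕ) < r - 1)
  let v1 : Fin (s + 2) := ⟨s, by omega⟩
  let v2 : Fin (s + 2) := ⟨s + 1, by omega⟩
  have hc : ∀ a : ℕ, a ≤ s → (univ.filter (fun x : Fin (s + 2) => (x : ℕ) < a)).card = a := by
    intro a ha
    rw [Fin.card_filter_val_lt]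
    omega
  have h0 : S0.card = s := hc s le_rfl
  have h1 : N1.card = t := hc t hts.le
  have h2 : N2.card = r - 1 := hc (r - 1) (by omega)
  have e1 : v1 ∉ S0 := by simp [S0, v1]
  have e2 : v2 ∉ S0 := by simp [S0, v2]
  have e3 : v1 ≠ v2 := by
    intro h
    have := congrArg Fin.val h
    simp [v1, v2] at this
  have e4 : N1 ⊆ S0 := by
    intro x hx
    simp only [N1, S0, mem_filter, mem_univ, true_and] at hx ⊢
    omega
  have e5 : N2 ⊆ S0 := by
    intro x hx
    simp only [N2, S0, mem_filter, mem_univ, true_and] at hx ⊢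
    omega
  have e6 : ∀ x, x ∈ S0 ∨ x = v1 ∨ x = v2 := by
    intro x
    simp only [S0, v1, v2, mem_filter, mem_univ, true_and, Fin.ext_iff]
    omega
  have hcount := count S0 N1 N2 v1 v2 e1 e2 e3 e4 e5 e6
  obtain ⟨p', rfl⟩ : ∃ p', p = p' + 2 := ⟨p - 2, by omega⟩
  obtain ⟨r', rfl⟩ : ∃ r', r = r' + 1 := ⟨r - 1, by omega⟩
  refine ⟨kq (r' + 1) (H S0 N1 N2 v1 v2), ⟨s + 2, H S0 N1 N2 v1 v2, ?_, rfl⟩, ?_⟩
  · have h3 := hcount (p' + 1)
    unfold kq f
    rw [h3, h0, h1, h2]
    have h4 : (t + 1).choose (p' + 1) = t.choose p' + t.choose (p' + 1) := Nat.choose_succ_succ t p'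
    simp only [Nat.add_sub_cancel] at hb ⊢
    have h5 : p' + 2 - 1 = p' + 1 := rfl
    rw [h5] at hb ⊢
    have h6 : p' + 1 + 1 = p' + 2 := rfl
    rw [h6, h4]
    omega
  · have h3 := hcount r'
    unfold kq f
    rw [h3, h0, h1, h2]
    simp only [Nat.add_sub_cancel, Nat.choose_self]
    omega

/-- **Q1 is false.** For all `3 ≤ p < r ≤ s` and `t < s` with `C(r-1,p-1) < C(t,p-2)` (for given
`p, r` these are all large `t`) the number `f_r(s,t)` is not the maximum of `k_r(G)` over the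
graphs with `k_p(G) ≤ f_p(s,t+1) - 1`; in particular the equality asserted for all
`3 ≤ p < r ≤ s`, `p - 2 ≤ t < s` fails. -/
theorem result :
    (∀ p r s t : ℕ, 3 ≤ p → p < r → r ≤ s → t < s → (r - 1).choose (p - 1) < t.choose (p - 2) →
      ¬ IsGreatest (vals p r (f p s (t + 1) - 1)) (f r s t)) ∧
    ¬ (∀ p r s t : ℕ, 3 ≤ p → p < r → r ≤ s → p - 2 ≤ t → t < s →
      IsGreatest (vals p r (f p s (t + 1) - 1)) (f r s t)) := by
  have key : ∀ p r s t : ℕ, 3 ≤ p → p < r → r ≤ s → t < s →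
      (r - 1).choose (p - 1) < t.choose (p - 2) →
      ¬ IsGreatest (vals p r (f p s (t + 1) - 1)) (f r s t) := by
    intro p r s t hp hpr hrs hts hb hG
    obtain ⟨m, hm, hlt⟩ := exceeds p r s t hp hpr hrs hts hb
    exact absurd (hG.2 hm) (by omega)
  refine ⟨key, ?_⟩
  intro h
  exact key 3 4 5 4 (by norm_num) (by norm_num) (by norm_num) (by norm_num) (by decide)
    (h 3 4 5 4 (by norm_num) (by norm_num) (by norm_num) (by norm_num) (by norm_num))

end Pool.Agent.Results.MP_8926dc_co.TwoVertices
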